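import Pool.Agent.U517.TB.AlmostEvery

/-!
# Almost-sure dense forests from unions of rotated lattices (MP_e7d22a_nt, Q1)

The union of `k` rotated and translated copies of the triangular lattice is a dense forest for
almost all angles and translations if and only if `k ≥ 2`.

Two copies without a common rational direction form a dense forest, by a compactness argument:
a limit of longer and longer segments far from both copies would be a line far from both copies,
so its direction would be rational for both.  The pairs of angles with a common rational
direction have countably many differences.
-/

set_option autoImplicit false

namespace Pool.Agent.Results.MP_e7d22a_nt.AlmostEvery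

open Pool.Agent.U517.TB MeasureTheory

theorem result (k : ℕ) :
    (∀ᵐ q : (Fin k → UnitAddCircle) × (Fin k → ℂ), HasVisibility (TBGc k q.2 q.1)) ↔ 2 ≤ k :=
  ae_iff_two_le k

end Pool.Agent.Results.MP_e7d22a_nt.AlmostEvery
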